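import Pool.Agent.helper64.D2.SpecC

/-! # Project dc: module HTH (the chain) -/

set_option autoImplicit false

open Filter Topology
open scoped commutatorElement

namespace Pool.Agent.helper64.D2

theorem HTH_index (k : ℕ → ℕ) (hk : StrictMono k) (m : ℕ) (hm : k 0 ≤ m) : ∃ i, k i ≤ m ∧ m < k (i + 1) := by
  induction m, hm using Nat.le_induction with
  | base => exact ⟨0, le_refl _, hk (Nat.lt_succ_self 0)⟩
  | succ m hm ih =>
    obtain ⟨i, h1, h2⟩ := ih
    rcases Nat.lt_or_ge (m + 1) (k (i + 1)) with h | h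
    · exact ⟨i, by omega, h⟩
    · exact ⟨i + 1, h, by have := hk (Nat.lt_succ_self (i + 1)); simp only [Nat.succ_eq_add_one] at this; omega⟩

theorem HTH_ne (k : ℕ → ℕ) (hk : StrictMono k) (m i : ℕ) (h1 : k i < m) (h2 : m < k (i + 1)) (j : ℕ) : k j ≠ m := by
  intro h
  rcases Nat.lt_or_ge i j with hij | hij
  · have := hk.monotone (Nat.succ_le_of_lt hij)
    simp only [Nat.succ_eq_add_one] at this
    omega
  · have := hk.monotone hij
    omega

theorem HTH_sz1 (a : ℝ) (ha : 0 ≤ a) : Sz 1 a := by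
  intro x
  have h1 : ev 1 = fun x : ℝ => x := by
    funext x
    exact ev_one x
  have h2 : deriv (fun x : ℝ => x) = fun _ => (1 : ℝ) := by
    funext x
    exact deriv_id x
  unfold d2
  rw [h1, h2, deriv_const, abs_zero]
  exact ha

/-- Admissibility from the sizes. -/
theorem HTH_adm (B : ℕ) (hB : 30 ≤ B) (hBSQ : BSQ_stmt) (C : ℝ) (hC : 0 ≤ C) (z : ℕ → DD)
    (h0 : ∀ m < 160 * bs B 0, z m = 1)
    (h1 : ∀ i m, 160 * bs B i ≤ m → m < 160 * bs B (i + 1) → Sz (z m) (C / (bs B i : ℝ) ^ 4)) : Adm z := by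
  obtain ⟨hmono, hge, -, -, -, hgrow, -, -⟩ := hBSQ B hB
  have hb0 : bs B 0 = B := rfl
  refine ⟨fun m hm => h0 m (by rw [hb0]; omega), fun m => C * 192 ^ 4 / (m : ℝ) ^ 4, ?_, ?_⟩
  · have h2 : Tendsto (fun m : ℕ => (C * 192 ^ 4) ^ 2 * (1 / (m : ℝ))) atTop (𝓝 0) := by
      have h3 := (tendsto_one_div_atTop_nhds_zero_nat (𝕜 := ℝ)).const_mul ((C * 192 ^ 4) ^ 2)
      rw [mul_zero] at h3
      exact h3
    refine squeeze_zero (fun m => by positivity) (fun m => ?_) h2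
    rcases Nat.eq_zero_or_pos m with h | h
    · subst h
      simp
    · have hm : (1 : ℝ) ≤ (m : ℝ) := by exact_mod_cast h
      have hm0 : (0 : ℝ) < (m : ℝ) := by linarith
      have e1 : (m : ℝ) ^ 3 * (C * 192 ^ 4 / (m : ℝ) ^ 4) ^ 2 = (C * 192 ^ 4) ^ 2 * (1 / (m : ℝ) ^ 5) := by
        field_simp
      rw [e1]
      apply mul_le_mul_of_nonneg_left _ (by positivity)
      apply one_div_le_one_div_of_le hm0
      calc (m : ℝ) = (m : ℝ) ^ 1 := (pow_one _).symm
        _ ≤ (m : ℝ) ^ 5 := pow_le_pow_right₀ hm (by norm_num)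
  · intro m
    rcases Nat.lt_or_ge m (160 * bs B 0) with h | h
    · rw [h0 m h]
      exact HTH_sz1 _ (by positivity)
    · have hk : StrictMono fun n => 160 * bs B n := fun a b hab => by
        have := hmono hab
        simp only
        omega
      obtain ⟨i, hi1, hi2⟩ := HTH_index (fun n => 160 * bs B n) hk m h
      have h3 := h1 i m hi1 hi2
      intro x
      refine (h3 x).trans ?_
      have hbpos : 0 < bs B i := by
        have := hge i
        omega
      have hmpos : 0 < m := by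
        have : 160 * bs B i ≤ m := hi1
        omega
      have h4 : m ≤ 192 * bs B i := by
        have h5 := (hgrow i).2
        have h6 : m < 160 * bs B (i + 1) := hi2
        omega
      have h5 : (m : ℝ) ≤ 192 * (bs B i : ℝ) := by exact_mod_cast h4
      have hm0 : (0 : ℝ) < (m : ℝ) := by exact_mod_cast hmpos
      have hb0' : (0 : ℝ) < (bs B i : ℝ) := by exact_mod_cast hbpos
      rw [div_le_div_iff₀ (by positivity) (by positivity)]
      have h6 : (m : ℝ) ^ 4 ≤ (192 * (bs B i : ℝ)) ^ 4 := pow_le_pow_left₀ hm0.le h5 4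
      calc C * (m : ℝ) ^ 4 ≤ C * (192 * (bs B i : ℝ)) ^ 4 := mul_le_mul_of_nonneg_left h6 hC
        _ = C * 192 ^ 4 * (bs B i : ℝ) ^ 4 := by ring

theorem HTH (hHST : HST_stmt) (hBSQ : BSQ_stmt) (hGLU : GLU_stmt) (hPLC : PLC_stmt) (hADM : ADM_stmt)
    (hKRS : KRS_stmt) (hSZC : SZC_stmt) : HTH_stmt := by
  obtain ⟨B0, C, hC, hH⟩ := hHST
  refine ⟨max B0 30, fun B hB F X hF => ?_⟩
  have hB30 : 30 ≤ B := (le_max_right _ _).trans hB
  have hBB0 : B0 ≤ B := (le_max_left _ _).trans hB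
  obtain ⟨hmono, hge, -, -, -, hgrow, -, hslot⟩ := hBSQ B hB30
  have hC0 : 0 ≤ C := by linarith
  have hbpos : ∀ n, 0 < bs B n := fun n => by
    have := hge n
    omega
  -- the states
  set Q : ℕ → DD → Prop := fun n S => ∃ XS : ℝ → ℝ, Rep S XS ∧
    St XS (3 / 10) (13 / 20 - 1 / (bs B n : ℝ)) (1 / (bs B n : ℝ) ^ 40) (2 ^ (3 * bs B n)) with hQdef
  have hstep : ∀ (n : ℕ) (S : DD), Q n S → ∃ (R u v u' v' : ℕ → DD), R 0 = S * F n ∧
      (∀ j, R (j + 1) = ⁅u j, v j⁆ * R j * ⁅u' j, v' j⁆) ∧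
      (∀ j, Sz (R j) (C / (bs B n : ℝ) ^ 4) ∧ Sz (u j) (C / (bs B n : ℝ) ^ 4) ∧ Sz (v j) (C / (bs B n : ℝ) ^ 4) ∧
        Sz (u' j) (C / (bs B n : ℝ) ^ 4) ∧ Sz (v' j) (C / (bs B n : ℝ) ^ 4)) ∧
      (∀ j ≥ 5 * bs B n, u j = 1 ∧ v j = 1 ∧ u' j = 1 ∧ v' j = 1) ∧ Q (n + 1) (R (5 * bs B n)) := by
    rintro n S ⟨XS, hS1, hS2⟩
    obtain ⟨R, u, v, u', v', X', h1, h2, h3, h4, h5, h6⟩ := hH (bs B n) (by have := hge n; omega) S (F n) XS (X n)
      hS1 (hF n).1 hS2 (hF n).2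
    exact ⟨R, u, v, u', v', h1, h2, h3, h4, X', h5, h6⟩
  choose R u v u' v' hR0 hR1 hRs hRt hRq using hstep
  have hQ0 : Q 0 1 := by
    refine ⟨fun _ => 0, fun x => by rw [ev_one, add_zero], contDiff_const, fun x _ => rfl, ?_, ?_⟩
    · intro x
      have : d2 (fun _ : ℝ => (0 : ℝ)) x = 0 := by
        unfold d2
        rw [deriv_const', deriv_const]
      rw [this, abs_zero]
      positivity
    · intro x y
      have : ∀ x, d2 (fun _ : ℝ => (0 : ℝ)) x = 0 := fun x => by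
        unfold d2
        rw [deriv_const', deriv_const]
      rw [this, this, sub_zero, abs_zero]
      positivity
  let Sq : (n : ℕ) → {S : DD // Q n S} := fun n =>
    Nat.rec ⟨1, hQ0⟩ (fun n s => ⟨R n s.1 s.2 (5 * bs B n), hRq n s.1 s.2⟩) n
  set k : ℕ → ℕ := fun n => 160 * bs B n with hkdef
  have hk : StrictMono k := fun a b hab => by
    have := hmono hab
    simp only [hkdef]
    omega
  have hk0 : 2 ≤ k 0 := by
    have := hbpos 0
    simp only [hkdef]
    omega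
  -- stage sequences
  set RR : ℕ → ℕ → DD := fun i => R i (Sq i).1 (Sq i).2 with hRR
  set uu1 : ℕ → ℕ → DD := fun i => u i (Sq i).1 (Sq i).2 with huu
  set vv1 : ℕ → ℕ → DD := fun i => v i (Sq i).1 (Sq i).2 with hvv
  set uu2 : ℕ → ℕ → DD := fun i => u' i (Sq i).1 (Sq i).2 with huu2
  set vv2 : ℕ → ℕ → DD := fun i => v' i (Sq i).1 (Sq i).2 with hvv2
  have hRR0 : ∀ i, RR i 0 = (Sq i).1 * F i := fun i => hR0 i _ _
  have hRR1 : ∀ i j, RR i (j + 1) = ⁅uu1 i j, vv1 i j⁆ * RR i j * ⁅uu2 i j, vv2 i j⁆ := fun i j => hR1 i _ _ j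
  have hRRt : ∀ i j, 5 * bs B i ≤ j → uu1 i j = 1 ∧ vv1 i j = 1 ∧ uu2 i j = 1 ∧ vv2 i j = 1 := fun i j hj =>
    hRt i _ _ j hj
  have hSq : ∀ i, (Sq (i + 1)).1 = RR i (5 * bs B i) := fun i => rfl
  have hconst : ∀ i j, 5 * bs B i ≤ j → RR i j = (Sq (i + 1)).1 := by
    intro i j hj
    induction j, hj using Nat.le_induction with
    | base => exact (hSq i).symm
    | succ j hj ih =>
      obtain ⟨e1, e2, e3, e4⟩ := hRRt i j hj
      rw [hRR1, e1, e2, e3, e4, ih, commutatorElement_one_right, one_mul, mul_one]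
  -- gluing
  obtain ⟨V, hV0, hV⟩ := hGLU DD k (fun i n => RR i (n - k i)) 1 hk
  obtain ⟨a, ha0, ha⟩ := hGLU DD k (fun i n => if n = k i then 1 else uu1 i (n - k i - 1)) 1 hk
  obtain ⟨b, hb0, hb⟩ := hGLU DD k (fun i n => if n = k i then 1 else vv1 i (n - k i - 1)) 1 hk
  obtain ⟨a', ha0', ha'⟩ := hGLU DD k (fun i n => if n = k i then 1 else uu2 i (n - k i - 1)) 1 hk
  obtain ⟨b', hb0', hb'⟩ := hGLU DD k (fun i n => if n = k i then 1 else vv2 i (n - k i - 1)) 1 hk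
  obtain ⟨hpl1, hpl2⟩ := hPLC k F hk
  have hne0 : ∀ m, m < k 0 → ∀ i, k i ≠ m := fun m hm i h => by
    have := hk.monotone (Nat.zero_le i)
    omega
  have hplS : ∀ i m, k i ≤ m → m < k (i + 1) → Sz (place k F m) (C / (bs B i : ℝ) ^ 4) := by
    intro i m h1 h2
    rcases Nat.eq_or_lt_of_le h1 with h | h
    · rw [← h, hpl1]
      intro x
      rw [(hSZC.1 (F i) (X i) (hF i).1).2.2.2 x]
      refine ((hF i).2.2.2.1 x).trans ?_
      have hb1 : (1 : ℝ) ≤ (bs B i : ℝ) := by exact_mod_cast hbpos i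
      rw [div_le_div_iff₀ (by positivity) (by positivity)]
      have h3 : (bs B i : ℝ) ^ 4 ≤ (bs B i : ℝ) ^ 40 := pow_le_pow_right₀ hb1 (by norm_num)
      nlinarith [pow_pos (lt_of_lt_of_le one_pos hb1) 40]
    · rw [hpl2 m (HTH_ne k hk m i h h2)]
      exact HTH_sz1 _ (by positivity)
  -- the relation
  have hrel : ∀ m, V m = ⁅a m, b m⁆ * V (m - 1) * place k F m * ⁅a' m, b' m⁆ := by
    intro m
    rcases Nat.lt_or_ge m (k 0) with hm | hm
    · rw [hV0 m hm, hV0 (m - 1) (by omega), hpl2 m (hne0 m hm), ha0 m hm, hb0 m hm, ha0' m hm, hb0' m hm,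
        commutatorElement_one_right]
      simp
    · obtain ⟨i, hi1, hi2⟩ := HTH_index k hk m hm
      rcases Nat.eq_or_lt_of_le hi1 with h | h
      · have hVm : V m = (Sq i).1 * F i := by
          rw [hV i m hi1 hi2, ← h, Nat.sub_self, hRR0]
        have hVm1 : V (m - 1) = (Sq i).1 := by
          rcases Nat.eq_zero_or_pos i with h0 | h0
          · subst h0
            rw [hV0 (m - 1) (by omega)]
            rfl
          · obtain ⟨i', rfl⟩ : ∃ i', i = i' + 1 := ⟨i - 1, by omega⟩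
            have h3 : k i' < k (i' + 1) := hk (Nat.lt_succ_self i')
            have h4 := hslot i'
            have h5 := hbpos i'
            have h6 : k (i' + 1) = 160 * bs B (i' + 1) := rfl
            have h7 : k i' = 160 * bs B i' := rfl
            rw [hV i' (m - 1) (by omega) (by omega)]
            exact hconst i' _ (by omega)
        rw [hVm, hVm1, ha i m hi1 hi2, hb i m hi1 hi2, ha' i m hi1 hi2, hb' i m hi1 hi2, if_pos h.symm, if_pos h.symm,
          if_pos h.symm, if_pos h.symm, commutatorElement_one_right]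
        have : place k F m = F i := by rw [← h]; exact hpl1 i
        rw [this, one_mul, mul_one]
      · have hmk : m ≠ k i := by omega
        rw [hpl2 m (HTH_ne k hk m i h hi2), hV i m hi1 hi2, hV i (m - 1) (by omega) (by omega), ha i m hi1 hi2,
          hb i m hi1 hi2, ha' i m hi1 hi2, hb' i m hi1 hi2, if_neg hmk, if_neg hmk, if_neg hmk, if_neg hmk, mul_one]
        have h3 : m - k i = (m - k i - 1) + 1 := by omega
        have h4 : m - 1 - k i = m - k i - 1 := by omega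
        rw [h4]
        conv_lhs => rw [h3]
        exact hRR1 i _
  -- admissibility
  have hszR : ∀ i j, Sz (RR i j) (C / (bs B i : ℝ) ^ 4) := fun i j => (hRs i _ _ j).1
  have hszu : ∀ i j, Sz (uu1 i j) (C / (bs B i : ℝ) ^ 4) := fun i j => (hRs i _ _ j).2.1
  have hszv : ∀ i j, Sz (vv1 i j) (C / (bs B i : ℝ) ^ 4) := fun i j => (hRs i _ _ j).2.2.1
  have hszu2 : ∀ i j, Sz (uu2 i j) (C / (bs B i : ℝ) ^ 4) := fun i j => (hRs i _ _ j).2.2.2.1
  have hszv2 : ∀ i j, Sz (vv2 i j) (C / (bs B i : ℝ) ^ 4) := fun i j => (hRs i _ _ j).2.2.2.2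
  have hAV : Adm V := HTH_adm B hB30 hBSQ C hC0 V hV0 fun i m h1 h2 => by
    rw [hV i m h1 h2]
    exact hszR i _
  have hgen : ∀ (z : ℕ → DD) (w : ℕ → ℕ → DD), (∀ i j, Sz (w i j) (C / (bs B i : ℝ) ^ 4)) → (∀ m < k 0, z m = 1) →
      (∀ i m, k i ≤ m → m < k (i + 1) → z m = if m = k i then 1 else w i (m - k i - 1)) → Adm z := by
    intro z w hw h0 h1
    refine HTH_adm B hB30 hBSQ C hC0 z h0 fun i m h2 h3 => ?_
    rw [h1 i m h2 h3]
    split_ifs
    · exact HTH_sz1 _ (by positivity)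
    · exact hw i _
  have hAa : Adm a := hgen a uu1 hszu ha0 ha
  have hAb : Adm b := hgen b vv1 hszv hb0 hb
  have hAa' : Adm a' := hgen a' uu2 hszu2 ha0' ha'
  have hAb' : Adm b' := hgen b' vv2 hszv2 hb0' hb'
  have hAp : Adm (place k F) := HTH_adm B hB30 hBSQ C hC0 _ (fun m hm => hpl2 m (hne0 m hm)) hplS
  have hAc : Adm (a' * b' * a'⁻¹ * b'⁻¹) :=
    hADM.1 _ _ (hADM.1 _ _ (hADM.1 _ _ hAa' hAb') (hADM.2.1 _ hAa')) (hADM.2.1 _ hAb')
  have hAy : Adm (place k F * (a' * b' * a'⁻¹ * b'⁻¹)) := hADM.1 _ _ hAp hAc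
  have hkey : (b * a * b⁻¹ * a⁻¹) * V = sh V * (place k F * (a' * b' * a'⁻¹ * b'⁻¹)) := by
    funext m
    have h := hrel m
    show (b m * a m * (b m)⁻¹ * (a m)⁻¹) * V m = V (m - 1) * (place k F m * (a' m * b' m * (a' m)⁻¹ * (b' m)⁻¹))
    rw [h]
    simp only [commutatorElement_def]
    group
  have h1 := hKRS _ _ V hAV hAy hkey
  have h2 : b * a * b⁻¹ * a⁻¹ ∈ K0 := Subgroup.subset_closure (Or.inl ⟨b, a, hAb, hAa, rfl⟩)
  have h3 : a' * b' * a'⁻¹ * b'⁻¹ ∈ K0 := Subgroup.subset_closure (Or.inl ⟨a', b', hAa', hAb', rfl⟩)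
  have h4 : (place k F * (a' * b' * a'⁻¹ * b'⁻¹))⁻¹ ∈ K0 := by
    have := K0.mul_mem (K0.inv_mem h2) h1
    rwa [inv_mul_cancel_left] at this
  have h5 := K0.mul_mem (K0.inv_mem h4) (K0.inv_mem h3)
  rwa [inv_inv, mul_inv_cancel_right] at h5

end Pool.Agent.helper64.D2
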